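import Pool.Agent.helper80.VQ.SpecFL
import Pool.Agent.helper16.CRO.LIN

/-!
# vq:LNP: linear equations with parameters
-/

set_option autoImplicit false

open scoped MatrixGroups ContDiff Topology UpperHalfPlane ComplexConjugate ENNReal
open UpperHalfPlane MeasureTheory Filter Set

namespace Pool.Agent.VQ

open Pool.Agent.RS
open Pool.Agent.VQE (nm)

theorem LNP_gron_pos {F : Type*} [NormedAddCommGroup F] [NormedSpace ℝ F] (u u' : ℝ → F) (hu : ∀ s, HasDerivAt u (u' s) s)
    (K ε T : ℝ) (hK : 1 ≤ K) (hε : 0 ≤ ε) (hb : ∀ s, |s| ≤ T → ‖u' s‖ ≤ K * ‖u s‖ + ε) (t : ℝ) (ht : 0 ≤ t) (htT : t ≤ T) :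
    ‖u t‖ ≤ (‖u 0‖ + ε) * Real.exp (K * t) := by
  have h := norm_le_gronwallBound_of_norm_deriv_right_le (f := u) (f' := u') (δ := ‖u 0‖) (K := K) (ε := ε) (a := 0) (b := t)
    (fun s _ => (hu s).continuousAt.continuousWithinAt) (fun s _ => (hu s).hasDerivWithinAt) le_rfl
    (fun s hs => hb s (by rw [abs_of_nonneg hs.1]; linarith [hs.2])) t ⟨ht, le_rfl⟩
  refine h.trans ?_
  rw [sub_zero, gronwallBound_of_K_ne_0 (by linarith)]
  have h1 : 1 ≤ Real.exp (K * t) := Real.one_le_exp (by positivity)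
  have h2 : ε / K ≤ ε := div_le_self hε hK
  have h3 : ε / K * (Real.exp (K * t) - 1) ≤ ε * Real.exp (K * t) := by
    refine mul_le_mul h2 (by linarith) (by linarith) hε
  linarith

theorem LNP_gron {F : Type*} [NormedAddCommGroup F] [NormedSpace ℝ F] (u u' : ℝ → F) (hu : ∀ s, HasDerivAt u (u' s) s)
    (K ε T : ℝ) (hK : 1 ≤ K) (hε : 0 ≤ ε) (hb : ∀ s, |s| ≤ T → ‖u' s‖ ≤ K * ‖u s‖ + ε) (t : ℝ) (htT : |t| ≤ T) :
    ‖u t‖ ≤ (‖u 0‖ + ε) * Real.exp (K * |t|) := by
  rcases le_total 0 t with ht | ht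
  · rw [abs_of_nonneg ht] at htT ⊢
    exact LNP_gron_pos u u' hu K ε T hK hε hb t ht htT
  · rw [abs_of_nonpos ht] at htT ⊢
    have h := LNP_gron_pos (fun s => u (-s)) (fun s => -(u' (-s))) (fun s => by
      have h1 : HasDerivAt (u ∘ Neg.neg) ((-1 : ℝ) • u' (-s)) s := (hu (-s)).scomp s (hasDerivAt_neg s)
      rw [neg_one_smul] at h1
      exact h1) K ε T hK hε (fun s hs => by rw [norm_neg]; exact hb (-s) (by rw [abs_neg]; exact hs)) (-t) (by linarith) htT
    simpa using h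

theorem LNP_proof : LNP_stmt := by
  intro Λ _ F _ _ _ A hA
  have hAp : ∀ p, Continuous (A p) := fun p => hA.comp (Continuous.prodMk_right p)
  choose Y hY0 hY using fun p => Pool.Agent.CRO.LIN F (A p) (hAp p)
  refine ⟨Y, hY0, hY, ?_⟩
  have hYc : ∀ p, Continuous (Y p) := fun p => continuous_iff_continuousAt.2 fun t => (hY p t).continuousAt
  rw [continuous_iff_continuousAt]
  rintro ⟨p0, t0⟩
  set T : ℝ := |t0| + 1 with hT
  have hT0 : 0 < T := by positivity
  have hcomp : IsCompact (Icc (-T) T) := isCompact_Icc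
  obtain ⟨M, hM⟩ := hcomp.exists_bound_of_continuousOn (hAp p0).continuousOn
  obtain ⟨L, hL⟩ := hcomp.exists_bound_of_continuousOn (hYc p0).continuousOn
  have h0 : (0 : ℝ) ∈ Icc (-T) T := ⟨by linarith, hT0.le⟩
  have hM0 : 0 ≤ M := (norm_nonneg _).trans (hM 0 h0)
  have hL0 : 0 ≤ L := (norm_nonneg _).trans (hL 0 h0)
  -- closeness of the solutions
  have key : ∀ η : ℝ, 0 < η → ∀ᶠ p in 𝓝 p0, ∀ s ∈ Icc (-T) T, ‖Y p s - Y p0 s‖ ≤ η := by
    intro η hη
    set c : ℝ := (L + 1) * Real.exp ((M + 1) * T) with hc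
    have hc0 : 0 < c := by positivity
    set ε : ℝ := min 1 (η / c) with hε
    have hε0 : 0 < ε := lt_min one_pos (div_pos hη hc0)
    have h1 : ∀ᶠ p in 𝓝 p0, ∀ s ∈ Icc (-T) T, ‖A p s - A p0 s‖ ≤ ε := by
      refine hcomp.eventually_forall_of_forall_eventually ?_
      intro s _
      have h2 : Continuous fun q : Λ × ℝ => ‖A q.1 q.2 - A p0 q.2‖ := (hA.sub ((hAp p0).comp continuous_snd)).norm
      have h3 := h2.tendsto (p0, s)
      have h4 : ‖A (p0, s).1 (p0, s).2 - A p0 (p0, s).2‖ = 0 := by simp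
      rw [h4] at h3
      exact (h3.eventually_lt_const hε0).mono fun q hq => hq.le
    filter_upwards [h1] with p hp
    have hZ : ∀ s, HasDerivAt (fun s => Y p s - Y p0 s) ((A p s).comp (Y p s) - (A p0 s).comp (Y p0 s)) s := fun s => (hY p s).sub (hY p0 s)
    have hb : ∀ s, |s| ≤ T → ‖(A p s).comp (Y p s) - (A p0 s).comp (Y p0 s)‖ ≤ (M + 1) * ‖Y p s - Y p0 s‖ + ε * (L + 1) := by
      intro s hs
      have hs' : s ∈ Icc (-T) T := abs_le.1 hs
      have e1 : (A p s).comp (Y p s) - (A p0 s).comp (Y p0 s) = (A p s).comp (Y p s - Y p0 s) + (A p s - A p0 s).comp (Y p0 s) := by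
        rw [ContinuousLinearMap.comp_sub, ContinuousLinearMap.sub_comp]
        abel
      rw [e1]
      have h2 : ‖A p s‖ ≤ M + 1 := by
        have h3 : A p s = A p0 s + (A p s - A p0 s) := by abel
        rw [h3]
        refine (norm_add_le _ _).trans ?_
        have := hM s hs'
        have := hp s hs'
        have : ε ≤ 1 := min_le_left _ _
        linarith
      refine (norm_add_le _ _).trans (add_le_add ?_ ?_)
      · exact (ContinuousLinearMap.opNorm_comp_le _ _).trans (mul_le_mul_of_nonneg_right h2 (norm_nonneg _))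
      · refine (ContinuousLinearMap.opNorm_comp_le _ _).trans (mul_le_mul (hp s hs') ?_ (norm_nonneg _) hε0.le)
        have := hL s hs'
        linarith
    intro s hs
    have hs' : |s| ≤ T := abs_le.2 hs
    have h2 := LNP_gron (fun s => Y p s - Y p0 s) _ hZ (M + 1) (ε * (L + 1)) T (by linarith) (by positivity) hb s hs'
    have h3 : ‖Y p 0 - Y p0 0‖ = 0 := by rw [hY0, hY0, sub_self, norm_zero]
    have h4 : Real.exp ((M + 1) * |s|) ≤ Real.exp ((M + 1) * T) := Real.exp_le_exp.2 (mul_le_mul_of_nonneg_left hs' (by linarith))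
    have h5 : (‖Y p 0 - Y p0 0‖ + ε * (L + 1)) * Real.exp ((M + 1) * |s|) ≤ ε * c := by
      rw [h3, zero_add, hc, ← mul_assoc]
      exact mul_le_mul_of_nonneg_left h4 (by positivity)
    have h6 : ε * c ≤ η := by
      have h7 : ε ≤ η / c := min_le_right _ _
      calc ε * c ≤ η / c * c := mul_le_mul_of_nonneg_right h7 hc0.le
        _ = η := div_mul_cancel₀ η hc0.ne'
    exact h2.trans (h5.trans h6)
  rw [Metric.continuousAt_iff']
  intro η hη
  have h1 := key (η / 3) (by positivity)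
  have h2 : ∀ᶠ s in 𝓝 t0, dist (Y p0 s) (Y p0 t0) < η / 3 := Metric.continuousAt_iff'.1 (hYc p0).continuousAt (η / 3) (by positivity)
  have h3 : ∀ᶠ s in 𝓝 t0, s ∈ Icc (-T) T := by
    refine Icc_mem_nhds ?_ ?_
    · have := neg_abs_le t0
      linarith
    · have := le_abs_self t0
      linarith
  rw [nhds_prod_eq]
  filter_upwards [h1.prod_mk (h2.and h3)] with q hq
  obtain ⟨hq1, hq2, hq3⟩ := hq
  calc dist (Y q.1 q.2) (Y p0 t0) ≤ dist (Y q.1 q.2) (Y p0 q.2) + dist (Y p0 q.2) (Y p0 t0) := dist_triangle _ _ _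
    _ ≤ η / 3 + η / 3 := by
        refine add_le_add ?_ hq2.le
        rw [dist_eq_norm]
        exact hq1 q.2 hq3
    _ < η := by linarith

end Pool.Agent.VQ
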