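import Pool.Agent.helper84.VQ.Spec4a

/-!
# vq:GR4: Gronwall for the difference of two orbits with two energies
-/

set_option autoImplicit false

open scoped MatrixGroups ContDiff Topology UpperHalfPlane ComplexConjugate ENNReal
open UpperHalfPlane MeasureTheory Filter Set

namespace Pool.Agent.VQ

open Pool.Agent.RS
open Pool.Agent.VQE (nm)

theorem GR4_m {x y X Y : ℝ} (hx : |x| ≤ X) (hy : |y| ≤ Y) : |x * y| ≤ X * Y := by
  rw [abs_mul]
  exact mul_le_mul hx hy (abs_nonneg y) ((abs_nonneg x).trans hx)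

theorem GR4_gron_pos {F : Type*} [NormedAddCommGroup F] [NormedSpace ℝ F] (u u' : ℝ → F) (hu : ∀ s, HasDerivAt u (u' s) s)
    (K ε : ℝ) (hK : 1 ≤ K) (hε : 0 ≤ ε) (hb : ∀ s, ‖u' s‖ ≤ K * ‖u s‖ + ε) (t : ℝ) (ht : 0 ≤ t) :
    ‖u t‖ ≤ (‖u 0‖ + ε) * Real.exp (K * t) := by
  have h := norm_le_gronwallBound_of_norm_deriv_right_le (f := u) (f' := u') (δ := ‖u 0‖) (K := K) (ε := ε) (a := 0) (b := t)
    (fun s _ => (hu s).continuousAt.continuousWithinAt) (fun s _ => (hu s).hasDerivWithinAt) le_rfl (fun s _ => hb s) t ⟨ht, le_rfl⟩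
  refine h.trans ?_
  rw [sub_zero, gronwallBound_of_K_ne_0 (by linarith)]
  have h1 : 1 ≤ Real.exp (K * t) := Real.one_le_exp (by positivity)
  have h2 : ε / K ≤ ε := div_le_self hε hK
  have h3 : ε / K * (Real.exp (K * t) - 1) ≤ ε * Real.exp (K * t) := by
    refine mul_le_mul h2 (by linarith) (by linarith) hε
  linarith

theorem GR4_gron {F : Type*} [NormedAddCommGroup F] [NormedSpace ℝ F] (u u' : ℝ → F) (hu : ∀ s, HasDerivAt u (u' s) s)
    (K ε : ℝ) (hK : 1 ≤ K) (hε : 0 ≤ ε) (hb : ∀ s, ‖u' s‖ ≤ K * ‖u s‖ + ε) (t : ℝ) :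
    ‖u t‖ ≤ (‖u 0‖ + ε) * Real.exp (K * |t|) := by
  rcases le_total 0 t with ht | ht
  · rw [abs_of_nonneg ht]
    exact GR4_gron_pos u u' hu K ε hK hε hb t ht
  · rw [abs_of_nonpos ht]
    have h := GR4_gron_pos (fun s => u (-s)) (fun s => -(u' (-s))) (fun s => by
      have h1 : HasDerivAt (u ∘ Neg.neg) ((-1 : ℝ) • u' (-s)) s := (hu (-s)).scomp s (hasDerivAt_neg s)
      rw [neg_one_smul] at h1
      exact h1) K ε hK hε (fun s => by rw [norm_neg]; exact hb (-s)) (-t) (by linarith)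
    simpa using h

theorem GR4_a {d N ε r r' k k' a b c : ℝ} (hd' : d ≤ 1 / 30) (hr : |r - 1| ≤ d) (hr' : |r' - 1| ≤ d) (hk : |k| ≤ d) (hk' : |k'| ≤ d)
    (hrr : |r' - r| ≤ d * N + 2 * ε) (ha : |a - 1| ≤ N) (hb : |b| ≤ N) (hc : |c| ≤ N) :
    |(r' - r) / 2 * a - (k' * b + k * c) / 2| ≤ 11 / 10 * N + ε := by
  have hN : 0 ≤ N := (abs_nonneg _).trans hb
  have h0 : |r' - r| ≤ 2 * d := by
    rw [abs_le] at *
    constructor <;> linarith
  have h1 := abs_le.1 (GR4_m h0 ha)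
  have h2 := abs_le.1 hrr
  have h3 := abs_le.1 (GR4_m hk' hb)
  have h4 := abs_le.1 (GR4_m hk hc)
  have h5 : d * N ≤ 1 / 30 * N := mul_le_mul_of_nonneg_right hd' hN
  rw [abs_le]
  constructor <;> linarith [h1.1, h1.2, h2.1, h2.2, h3.1, h3.2, h4.1, h4.2]

theorem GR4_c {d N ε r r' k k' a c e : ℝ} (hd' : d ≤ 1 / 30) (hr : |r - 1| ≤ d) (hr' : |r' - 1| ≤ d) (hk : |k| ≤ d) (hk' : |k'| ≤ d)
    (hkk : |k' - k| ≤ d * N + 2 * ε) (ha : |a - 1| ≤ N) (hc : |c| ≤ N) (he : |e - 1| ≤ N) :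
    |(r + r') / 2 * c + (k * a - k' * e) / 2| ≤ 11 / 10 * N + ε := by
  have hN : 0 ≤ N := (abs_nonneg _).trans hc
  have h0 : |(r + r') / 2| ≤ 1 + d := by
    rw [abs_le] at *
    constructor <;> linarith
  have h1 := abs_le.1 (GR4_m h0 hc)
  have h2 := abs_le.1 hkk
  have h3 := abs_le.1 (GR4_m hk' he)
  have h4 := abs_le.1 (GR4_m hk ha)
  have h5 : d * N ≤ 1 / 30 * N := mul_le_mul_of_nonneg_right hd' hN
  rw [abs_le]
  constructor <;> linarith [h1.1, h1.2, h2.1, h2.2, h3.1, h3.2, h4.1, h4.2]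

/-- The four entries of `x - 1`; its norm is `nm x`. -/
def GR4_v (x : SL(2, ℝ)) : (ℝ × ℝ) × (ℝ × ℝ) := ((x.1 0 0 - 1, x.1 0 1), (x.1 1 0, x.1 1 1 - 1))

theorem GR4_norm (x : SL(2, ℝ)) : ‖GR4_v x‖ = nm x := by
  simp only [GR4_v, Prod.norm_def, Real.norm_eq_abs, Pool.Agent.VQE.nm]

theorem GR4_entries (x : SL(2, ℝ)) : |x.1 0 0 - 1| ≤ nm x ∧ |x.1 0 1| ≤ nm x ∧ |x.1 1 0| ≤ nm x ∧ |x.1 1 1 - 1| ≤ nm x :=
  ⟨(le_max_left _ _).trans (le_max_left _ _), (le_max_right _ _).trans (le_max_left _ _),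
    (le_max_left _ _).trans (le_max_right _ _), (le_max_right _ _).trans (le_max_right _ _)⟩

theorem GR4_proof (hPD4 : PD4_stmt) : GR4_stmt := by
  intro d D hFE _ hd' E E' t ε g g' hE hE' hEE
  have hε : 0 ≤ ε := (abs_nonneg _).trans hEE
  have hder := hPD4 d D hFE E E'
  let X : ℝ → SL(2, ℝ) := fun s => Xt D E E' g g' s
  let r : ℝ → ℝ := fun s => rho D.U E (D.fl E s g)
  let k : ℝ → ℝ := fun s => kap D.U E (D.fl E s g)
  let r' : ℝ → ℝ := fun s => rho D.U E' (D.fl E' s g')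
  let k' : ℝ → ℝ := fun s => kap D.U E' (D.fl E' s g')
  let u' : ℝ → (ℝ × ℝ) × (ℝ × ℝ) := fun s =>
    (((r' s - r s) / 2 * (X s).1 0 0 - (k' s * (X s).1 0 1 + k s * (X s).1 1 0) / 2,
      -((r s + r' s) / 2 * (X s).1 0 1) + (k' s * (X s).1 0 0 - k s * (X s).1 1 1) / 2),
     ((r s + r' s) / 2 * (X s).1 1 0 + (k s * (X s).1 0 0 - k' s * (X s).1 1 1) / 2,
      -((r' s - r s) / 2 * (X s).1 1 1) + (k' s * (X s).1 1 0 + k s * (X s).1 0 1) / 2))
  have hu : ∀ s, HasDerivAt (fun s => GR4_v (X s)) (u' s) s := by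
    intro s
    obtain ⟨h1, h2, h3, h4⟩ := hder s g g' hE hE' (r s) (k s) (r' s) (k' s) rfl rfl rfl rfl
    exact ((h1.sub_const 1).prodMk h2).prodMk (h3.prodMk (h4.sub_const 1))
  have hb : ∀ s, ‖u' s‖ ≤ 11 / 10 * ‖GR4_v (X s)‖ + ε := by
    intro s
    have hgx : D.fl E s g * X s = D.fl E' s g' := by
      show D.fl E s g * ((D.fl E s g)⁻¹ * D.fl E' s g') = D.fl E' s g'
      rw [mul_inv_cancel_left]
    have hrr : |r' s - r s| ≤ d * nm (X s) + 2 * ε := by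
      have h := hFE.lr E E' (D.fl E s g) (X s) hE hE'
      rw [hgx] at h
      exact h.trans (by linarith)
    have hkk : |k' s - k s| ≤ d * nm (X s) + 2 * ε := by
      have h := hFE.lk E E' (D.fl E s g) (X s) hE hE'
      rw [hgx] at h
      exact h.trans (by linarith)
    have hrr' : |r s - r' s| ≤ d * nm (X s) + 2 * ε := by rw [abs_sub_comm]; exact hrr
    have hkk' : |k s - k' s| ≤ d * nm (X s) + 2 * ε := by rw [abs_sub_comm]; exact hkk
    have hr : |r s - 1| ≤ d := hFE.ro E _ hE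
    have hr' : |r' s - 1| ≤ d := hFE.ro E' _ hE'
    have hk : |k s| ≤ d := hFE.ka E _ hE
    have hk' : |k' s| ≤ d := hFE.ka E' _ hE'
    obtain ⟨h1, h2, h3, h4⟩ := GR4_entries (X s)
    rw [GR4_norm, Prod.norm_def, Prod.norm_def, Prod.norm_def]
    refine max_le (max_le ?_ ?_) (max_le ?_ ?_)
    · exact GR4_a hd' hr hr' hk hk' hrr h1 h2 h3
    · have h := GR4_c (a := (X s).1 1 1) (c := (X s).1 0 1) (e := (X s).1 0 0) hd' hr hr' hk hk' hkk h4 h2 h1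
      rw [Real.norm_eq_abs, ← abs_neg]
      refine le_of_eq_of_le ?_ h
      congr 1
      ring
    · exact GR4_c hd' hr hr' hk hk' hkk h1 h3 h4
    · have h := GR4_a (a := (X s).1 1 1) (b := (X s).1 1 0) (c := (X s).1 0 1) hd' hr hr' hk hk' hrr h4 h3 h2
      rw [Real.norm_eq_abs, ← abs_neg]
      refine le_of_eq_of_le ?_ h
      congr 1
      ring
  have h := GR4_gron (fun s => GR4_v (X s)) u' hu (11 / 10) ε (by norm_num) hε hb t
  rw [GR4_norm, GR4_norm] at h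
  have h0 : X 0 = g⁻¹ * g' := by
    show (D.fl E 0 g)⁻¹ * D.fl E' 0 g' = g⁻¹ * g'
    rw [hFE.zero, hFE.zero]
  rw [h0] at h
  exact h

end Pool.Agent.VQ
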