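import Pool.Agent.helper84.VQ.Spec4a

/-!
# vq:PO4: from a chain of small steps to a pseudo-orbit
-/

set_option autoImplicit false

open scoped MatrixGroups ContDiff Topology UpperHalfPlane ComplexConjugate ENNReal
open UpperHalfPlane MeasureTheory Filter Set

namespace Pool.Agent.VQ

open Pool.Agent.RS
open Pool.Agent.VQE (nm)

theorem PO4_m {x y X Y : ℝ} (hx : |x| ≤ X) (hy : |y| ≤ Y) : |x * y| ≤ X * Y := by
  rw [abs_mul]
  exact mul_le_mul hx hy (abs_nonneg y) ((abs_nonneg x).trans hx)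

theorem PO4_entries (x : SL(2, ℝ)) : |x.1 0 0 - 1| ≤ nm x ∧ |x.1 0 1| ≤ nm x ∧ |x.1 1 0| ≤ nm x ∧ |x.1 1 1 - 1| ≤ nm x :=
  ⟨(le_max_left _ _).trans (le_max_left _ _), (le_max_right _ _).trans (le_max_left _ _),
    (le_max_left _ _).trans (le_max_right _ _), (le_max_right _ _).trans (le_max_right _ _)⟩

theorem PO4_nm_le {x : SL(2, ℝ)} {η : ℝ} (h1 : |x.1 0 0 - 1| ≤ η) (h2 : |x.1 0 1| ≤ η) (h3 : |x.1 1 0| ≤ η) (h4 : |x.1 1 1 - 1| ≤ η) :
    nm x ≤ η := max_le (max_le h1 h2) (max_le h3 h4)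

theorem PO4_mul (x y : SL(2, ℝ)) (i j : Fin 2) : (x * y).1 i j = x.1 i 0 * y.1 0 j + x.1 i 1 * y.1 1 j := by
  show (x.1 * y.1) i j = _
  rw [Matrix.mul_apply, Fin.sum_univ_two]

theorem PO4_one_nm : nm (1 : SL(2, ℝ)) = 0 := by
  refine le_antisymm (PO4_nm_le ?_ ?_ ?_ ?_) ((abs_nonneg _).trans (PO4_entries 1).1)
  all_goals simp

/-- the product of two elements close to `1` -/
theorem PO4_prod (a b : SL(2, ℝ)) (r : ℝ) (hr : r ≤ 1 / 100) (ha : nm a ≤ r) (hb : nm b ≤ r) : nm (a * b) ≤ 3 * r := by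
  obtain ⟨a1, a2, a3, a4⟩ := PO4_entries a
  obtain ⟨b1, b2, b3, b4⟩ := PO4_entries b
  have hr0 : 0 ≤ r := (abs_nonneg _).trans (a1.trans ha)
  have a1' := a1.trans ha
  have a2' := a2.trans ha
  have a3' := a3.trans ha
  have a4' := a4.trans ha
  have b1' := b1.trans hb
  have b2' := b2.trans hb
  have b3' := b3.trans hb
  have b4' := b4.trans hb
  have hrr : r * r ≤ 1 / 100 * r := mul_le_mul_of_nonneg_right hr hr0
  have key : ∀ s u x y z w : ℝ, |s| ≤ r → |u| ≤ r → |x| ≤ r → |y| ≤ r → |z| ≤ r → |w| ≤ r → |s + u + (x * y + z * w)| ≤ 3 * r := by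
    intro s u x y z w hs hu hx hy hz hw
    have h1 := abs_le.1 (PO4_m hx hy)
    have h2 := abs_le.1 (PO4_m hz hw)
    have h3 := abs_le.1 hs
    have h4 := abs_le.1 hu
    rw [abs_le]
    constructor <;> linarith [h1.1, h1.2, h2.1, h2.2, h3.1, h3.2, h4.1, h4.2]
  refine PO4_nm_le ?_ ?_ ?_ ?_
  · rw [PO4_mul]
    refine le_of_eq_of_le ?_ (key (a.1 0 0 - 1) (b.1 0 0 - 1) (a.1 0 0 - 1) (b.1 0 0 - 1) (a.1 0 1) (b.1 1 0) a1' b1' a1' b1' a2' b3')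
    congr 1
    ring
  · rw [PO4_mul]
    refine le_of_eq_of_le ?_ (key (a.1 0 1) (b.1 0 1) (a.1 0 0 - 1) (b.1 0 1) (a.1 0 1) (b.1 1 1 - 1) a2' b2' a1' b2' a2' b4')
    congr 1
    ring
  · rw [PO4_mul]
    refine le_of_eq_of_le ?_ (key (a.1 1 0) (b.1 1 0) (a.1 1 0) (b.1 0 0 - 1) (a.1 1 1 - 1) (b.1 1 0) a3' b3' a3' b1' a4' b3')
    congr 1
    ring
  · rw [PO4_mul]
    refine le_of_eq_of_le ?_ (key (a.1 1 1 - 1) (b.1 1 1 - 1) (a.1 1 0) (b.1 0 1) (a.1 1 1 - 1) (b.1 1 1 - 1) a4' b4' a3' b2' a4' b4')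
    congr 1
    ring

theorem PO4_Bo {b : SL(2, ℝ)} {r : ℝ} (h : b ∈ Bo r) : nm b ≤ r ∨ nm (-b) ≤ r := by
  rcases h with h | h
  · left
    refine PO4_nm_le ?_ ?_ ?_ ?_
    · have := (h 0 0).le; simpa using this
    · have := (h 0 1).le; simpa using this
    · have := (h 1 0).le; simpa using this
    · have := (h 1 1).le; simpa using this
  · right
    have hc : ∀ i j, (-b).1 i j = -(b.1 i j) := fun i j => by
      rw [Matrix.SpecialLinearGroup.coe_neg]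
      rfl
    refine PO4_nm_le ?_ ?_ ?_ ?_
    · have := (h 0 0).le
      rw [hc, ← abs_neg]
      simpa [add_comm] using this
    · have := (h 0 1).le
      rw [hc, abs_neg]
      simpa using this
    · have := (h 1 0).le
      rw [hc, abs_neg]
      simpa using this
    · have := (h 1 1).le
      rw [hc, ← abs_neg]
      simpa [add_comm] using this

/-- one step of time `σ = k t`, from `p` to `± y` -/
theorem PO4_step (d : ℝ) (D : Dyn) (hFE : FE d D) (t ε ρ : ℝ) (k : ℕ) (hk : 1 ≤ k) (p y : SL(2, ℝ) × ℝ) (hε : 0 ≤ ε) (hρ : ρ ≤ ε)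
    (hp : |p.2| ≤ d / 4) (hy : |y.2| ≤ d / 4) (hpy : |y.2 - p.2| ≤ ρ)
    (h : nm ((D.fl p.2 (k * t) p.1)⁻¹ * y.1) ≤ ρ ∨ nm (-((D.fl p.2 (k * t) p.1)⁻¹ * y.1)) ≤ ρ) :
    ∃ w : ℕ → SL(2, ℝ) × ℝ, PO D d t ε k w ∧ w 0 = p ∧ Pm y (w k) ∧ ∀ i ≤ k, |(w i).2 - p.2| ≤ |y.2 - p.2| := by
  classical
  obtain ⟨s, hs1, hs2⟩ : ∃ s : SL(2, ℝ), (s = y.1 ∨ s = -y.1) ∧ nm ((D.fl p.2 (k * t) p.1)⁻¹ * s) ≤ ρ := by
    rcases h with h | h
    · exact ⟨y.1, Or.inl rfl, h⟩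
    · refine ⟨-y.1, Or.inr rfl, ?_⟩
      rw [mul_neg]
      exact h
  let w : ℕ → SL(2, ℝ) × ℝ := fun i => if i < k then (D.fl p.2 (i * t) p.1, p.2) else (s, y.2)
  have hwlt : ∀ i, i < k → w i = (D.fl p.2 (i * t) p.1, p.2) := fun i hi => if_pos hi
  have hwk : w k = (s, y.2) := if_neg (lt_irrefl k)
  refine ⟨w, ⟨?_, ?_⟩, ?_, ?_, ?_⟩
  · intro i hi
    rcases lt_or_eq_of_le hi with h1 | h1
    · rw [hwlt i h1]
      exact hp
    · rw [h1, hwk]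
      exact hy
  · intro i hi
    have hadd : D.fl p.2 t (D.fl p.2 (i * t) p.1) = D.fl p.2 (((i + 1 : ℕ) : ℝ) * t) p.1 := by
      rw [← hFE.add p.2 t (i * t) p.1 hp]
      congr 1
      push_cast
      ring
    rcases Nat.lt_or_ge (i + 1) k with h1 | h1
    · rw [hwlt i hi, hwlt (i + 1) h1]
      constructor
      · show nm ((D.fl p.2 t (D.fl p.2 (i * t) p.1))⁻¹ * D.fl p.2 (((i + 1 : ℕ) : ℝ) * t) p.1) ≤ ε
        rw [hadd, inv_mul_cancel, PO4_one_nm]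
        exact hε
      · show |p.2 - p.2| ≤ ε
        rw [sub_self, abs_zero]
        exact hε
    · have h2 : i + 1 = k := le_antisymm hi h1
      rw [h2, hwlt i hi, hwk]
      constructor
      · show nm ((D.fl p.2 t (D.fl p.2 (i * t) p.1))⁻¹ * s) ≤ ε
        rw [hadd, h2]
        exact hs2.trans hρ
      · exact hpy.trans hρ
  · rw [hwlt 0 hk]
    refine Prod.ext ?_ rfl
    show D.fl p.2 (((0 : ℕ) : ℝ) * t) p.1 = p.1
    rw [Nat.cast_zero, zero_mul, hFE.zero]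
  · rw [hwk]
    exact ⟨hs1, rfl⟩
  · intro i hi
    rcases lt_or_eq_of_le hi with h1 | h1
    · rw [hwlt i h1]
      show |p.2 - p.2| ≤ |y.2 - p.2|
      rw [sub_self, abs_zero]
      exact abs_nonneg _
    · rw [h1, hwk]

theorem PO4_Pm_trans {x y z : SL(2, ℝ) × ℝ} (h1 : Pm x y) (h2 : Pm y z) : Pm x z := by
  obtain ⟨h3, h4⟩ := h1
  obtain ⟨h5, h6⟩ := h2
  refine ⟨?_, h6.trans h4⟩
  rcases h3 with h3 | h3 <;> rcases h5 with h5 | h5
  · left; rw [h5, h3]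
  · right; rw [h5, h3]
  · right; rw [h5, h3]
  · left; rw [h5, h3, neg_neg]

theorem PO4_ind (hCA4 : CA4_stmt) (d : ℝ) (D : Dyn) (hFE : FE d D) (t ε r σ : ℝ) (W : Set ℝ) (k : ℕ) (hk : 1 ≤ k) (hσ : σ = k * t)
    (hr0 : 0 < r) (hr : r ≤ 1 / 100) (hrε : 3 * r ≤ ε) (hW : ∀ E ∈ W, |E| ≤ d / 4) (m : ℕ) :
    ∀ p q : SL(2, ℝ) × ℝ, RC D σ r W (m + 1) p q → ∃ w : ℕ → SL(2, ℝ) × ℝ, PO D d t ε ((m + 1) * k) w ∧ w 0 = p ∧
      Pm q (w ((m + 1) * k)) ∧ ∀ i ≤ (m + 1) * k, |(w i).2 - p.2| ≤ ((m : ℝ) + 2) * r := by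
  subst hσ
  induction m with
  | zero =>
    intro p q h
    obtain ⟨x, hp, hx, ⟨hN1, hN2⟩, -, hq, hN3, hN4⟩ := h
    have hN2' := abs_lt.1 hN2
    have hN4' := abs_lt.1 hN4
    have hpx : (D.ph (k * t) p).2 = p.2 := rfl
    rw [hpx] at hN2'
    have h1 : |q.2 - p.2| ≤ 2 * r := by
      rw [abs_le]
      constructor <;> linarith [hN2'.1, hN2'.2, hN4'.1, hN4'.2]
    have h2 : nm ((D.fl p.2 (k * t) p.1)⁻¹ * q.1) ≤ 3 * r ∨ nm (-((D.fl p.2 (k * t) p.1)⁻¹ * q.1)) ≤ 3 * r := by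
      have e1 : (D.fl p.2 (k * t) p.1)⁻¹ * q.1 = ((D.ph (k * t) p).1⁻¹ * x.1) * (x.1⁻¹ * q.1) := by
        show _ = ((D.fl p.2 (k * t) p.1)⁻¹ * x.1) * (x.1⁻¹ * q.1)
        group
      rw [e1]
      rcases PO4_Bo hN1 with h3 | h3 <;> rcases PO4_Bo hN3 with h4 | h4
      · left; exact PO4_prod _ _ r hr h3 h4
      · right
        rw [← mul_neg]
        exact PO4_prod _ _ r hr h3 h4
      · right
        rw [← neg_mul]
        exact PO4_prod _ _ r hr h3 h4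
      · left
        rw [← neg_mul_neg]
        exact PO4_prod _ _ r hr h3 h4
    obtain ⟨w, hw1, hw2, hw3, hw4⟩ := PO4_step d D hFE t ε (3 * r) k hk p q (by linarith) hrε (hW _ hp) (hW _ hq) (by linarith) h2
    refine ⟨w, by rw [zero_add, one_mul]; exact hw1, hw2, by rw [zero_add, one_mul]; exact hw3, ?_⟩
    intro i hi
    rw [zero_add, one_mul] at hi
    rw [Nat.cast_zero, zero_add]
    exact (hw4 i hi).trans h1
  | succ m ih =>
    intro p q h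
    obtain ⟨x, hp, hx, ⟨hN1, hN2⟩, hR⟩ := h
    obtain ⟨w2, h21, h22, h23, h24⟩ := ih x q hR
    have hpx : (D.ph (k * t) p).2 = p.2 := rfl
    rw [hpx] at hN2
    have h1 : |x.2 - p.2| ≤ r := by
      rw [abs_sub_comm]
      exact hN2.le
    obtain ⟨w1, h11, h12, h13, h14⟩ := PO4_step d D hFE t ε r k hk p x (by linarith) (by linarith) (hW _ hp) (hW _ hx) h1 (PO4_Bo hN1)
    obtain ⟨w, hw1, hw2, hw3⟩ := hCA4 d D hFE t ε k ((m + 1) * k) w1 w2 h11 h21 (by rw [h22]; exact h13)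
    have e1 : k + (m + 1) * k = (m + 1 + 1) * k := by ring
    refine ⟨w, by rw [← e1]; exact hw1, by rw [hw2 0 (Nat.zero_le _)]; exact h12, ?_, ?_⟩
    · rw [← e1]
      exact PO4_Pm_trans h23 (hw3 _ le_rfl)
    · intro i hi
      have hm : (0 : ℝ) ≤ m := Nat.cast_nonneg m
      have hmr : 0 ≤ (m : ℝ) * r := mul_nonneg hm hr0.le
      push_cast
      rcases le_total i k with h5 | h5
      · rw [hw2 i h5]
        have := (h14 i h5).trans h1
        linarith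
      · obtain ⟨j, rfl⟩ := Nat.exists_eq_add_of_le h5
        rw [← e1] at hi
        have h6 := hw3 j (by omega)
        rw [h6.2]
        have h7 := abs_le.1 (h24 j (by omega))
        have h8 := abs_le.1 h1
        rw [abs_le]
        constructor <;> linarith [h7.1, h7.2, h8.1, h8.2]

theorem PO4_proof (hCA4 : CA4_stmt) : PO4_stmt := by
  intro d D hFE A R t ε k p q hσ hk hm hr0 hr hrε hW hR
  obtain ⟨m, hm'⟩ : ∃ m, A.m = m + 1 := ⟨A.m - 1, by omega⟩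
  have hR' : RC D (A.sg R) (A.r R) (Wi 2 R) (m + 1) p q := by
    have h1 : RC D (A.sg R) (A.r R) (Wi 2 R) A.m p q := hR
    rw [hm'] at h1
    exact h1
  obtain ⟨w, h1, h2, h3, h4⟩ := PO4_ind hCA4 d D hFE t ε (A.r R) (A.sg R) (Wi 2 R) k hk hσ hr0 hr hrε hW m p q hR'
  rw [hm']
  refine ⟨w, h1, h2, h3, ?_⟩
  intro i hi
  have h5 := h4 i hi
  push_cast
  linarith

end Pool.Agent.VQ
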