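import Pool.Agent.helper84.VQ.Spec4a

/-!
# vq:SP4: one step of two pseudo-orbits with jumps and a time shift
-/

set_option autoImplicit false

open scoped MatrixGroups ContDiff Topology UpperHalfPlane ComplexConjugate ENNReal
open UpperHalfPlane MeasureTheory Filter Set

namespace Pool.Agent.VQ

open Pool.Agent.RS
open Pool.Agent.VQE (nm)

theorem SP4_m {x y X Y : ℝ} (hx : |x| ≤ X) (hy : |y| ≤ Y) : |x * y| ≤ X * Y := by
  rw [abs_mul]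
  exact mul_le_mul hx hy (abs_nonneg y) ((abs_nonneg x).trans hx)

theorem SP4_entries (x : SL(2, ℝ)) : |x.1 0 0 - 1| ≤ nm x ∧ |x.1 0 1| ≤ nm x ∧ |x.1 1 0| ≤ nm x ∧ |x.1 1 1 - 1| ≤ nm x :=
  ⟨(le_max_left _ _).trans (le_max_left _ _), (le_max_right _ _).trans (le_max_left _ _),
    (le_max_left _ _).trans (le_max_right _ _), (le_max_right _ _).trans (le_max_right _ _)⟩

theorem SP4_nm_le {x : SL(2, ℝ)} {η : ℝ} (h1 : |x.1 0 0 - 1| ≤ η) (h2 : |x.1 0 1| ≤ η) (h3 : |x.1 1 0| ≤ η) (h4 : |x.1 1 1 - 1| ≤ η) :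
    nm x ≤ η := max_le (max_le h1 h2) (max_le h3 h4)

theorem SP4_inv (x : SL(2, ℝ)) : (x⁻¹).1 0 0 = x.1 1 1 ∧ (x⁻¹).1 0 1 = -x.1 0 1 ∧ (x⁻¹).1 1 0 = -x.1 1 0 ∧ (x⁻¹).1 1 1 = x.1 0 0 := by
  have h : (x⁻¹).1 = !![x.1 1 1, -x.1 0 1; -x.1 1 0, x.1 0 0] := by
    rw [← Matrix.adjugate_fin_two]
    exact Matrix.SpecialLinearGroup.coe_inv x
  rw [h]
  exact ⟨rfl, rfl, rfl, rfl⟩

theorem SP4_nm_inv (x : SL(2, ℝ)) : nm x⁻¹ ≤ nm x := by
  obtain ⟨h1, h2, h3, h4⟩ := SP4_entries x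
  obtain ⟨e1, e2, e3, e4⟩ := SP4_inv x
  refine SP4_nm_le ?_ ?_ ?_ ?_
  · rw [e1]; exact h4
  · rw [e2, abs_neg]; exact h2
  · rw [e3, abs_neg]; exact h3
  · rw [e4]; exact h1

theorem SP4_mul (x y : SL(2, ℝ)) (i j : Fin 2) : (x * y).1 i j = x.1 i 0 * y.1 0 j + x.1 i 1 * y.1 1 j := by
  show (x.1 * y.1) i j = _
  rw [Matrix.mul_apply, Fin.sum_univ_two]

theorem SP4_r (P Q : SL(2, ℝ)) (B η : ℝ) (hP : ∀ i j, |P.1 i j| ≤ B) (hQ : nm Q ≤ η) :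
    ∀ i j, |(P * Q).1 i j - P.1 i j| ≤ 2 * (B * η) := by
  obtain ⟨h1, h2, h3, h4⟩ := SP4_entries Q
  have key : ∀ (i : Fin 2) (u v : ℝ), |u| ≤ η → |v| ≤ η → |P.1 i 0 * u + P.1 i 1 * v| ≤ 2 * (B * η) := by
    intro i u v hu hv
    refine (abs_add_le _ _).trans ?_
    linarith [SP4_m (hP i 0) hu, SP4_m (hP i 1) hv]
  intro i j
  rw [SP4_mul]
  fin_cases j
  · refine le_of_eq_of_le ?_ (key i (Q.1 0 0 - 1) (Q.1 1 0) (h1.trans hQ) (h3.trans hQ))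
    congr 1
    show P.1 i 0 * Q.1 0 0 + P.1 i 1 * Q.1 1 0 - P.1 i 0 = _
    ring
  · refine le_of_eq_of_le ?_ (key i (Q.1 0 1) (Q.1 1 1 - 1) (h2.trans hQ) (h4.trans hQ))
    congr 1
    show P.1 i 0 * Q.1 0 1 + P.1 i 1 * Q.1 1 1 - P.1 i 1 = _
    ring

theorem SP4_l (P Q : SL(2, ℝ)) (B η : ℝ) (hP : ∀ i j, |P.1 i j| ≤ B) (hQ : nm Q ≤ η) :
    ∀ i j, |(Q * P).1 i j - P.1 i j| ≤ 2 * (B * η) := by
  obtain ⟨h1, h2, h3, h4⟩ := SP4_entries Q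
  have key : ∀ (j : Fin 2) (u v : ℝ), |u| ≤ η → |v| ≤ η → |P.1 0 j * u + P.1 1 j * v| ≤ 2 * (B * η) := by
    intro j u v hu hv
    refine (abs_add_le _ _).trans ?_
    linarith [SP4_m (hP 0 j) hu, SP4_m (hP 1 j) hv]
  intro i j
  rw [SP4_mul]
  fin_cases i
  · refine le_of_eq_of_le ?_ (key j (Q.1 0 0 - 1) (Q.1 0 1) (h1.trans hQ) (h2.trans hQ))
    congr 1
    show Q.1 0 0 * P.1 0 j + Q.1 0 1 * P.1 1 j - P.1 0 j = _
    ring
  · refine le_of_eq_of_le ?_ (key j (Q.1 1 0) (Q.1 1 1 - 1) (h3.trans hQ) (h4.trans hQ))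
    congr 1
    show Q.1 1 0 * P.1 0 j + Q.1 1 1 * P.1 1 j - P.1 1 j = _
    ring

theorem SP4_prod (a y b : SL(2, ℝ)) (ε : ℝ) (hε : 0 ≤ ε) (hε' : ε ≤ 1 / 100) (ha : nm a ≤ ε) (hb : nm b ≤ 4 * ε) (hy : nm y ≤ 1 / 2) :
    ∀ i j, |(a⁻¹ * y * b).1 i j - y.1 i j| ≤ 20 * ε := by
  have hyB : ∀ i j, |y.1 i j| ≤ 3 / 2 := by
    obtain ⟨h1, h2, h3, h4⟩ := SP4_entries y
    have h1' := abs_le.1 (h1.trans hy)
    have h2' := abs_le.1 (h2.trans hy)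
    have h3' := abs_le.1 (h3.trans hy)
    have h4' := abs_le.1 (h4.trans hy)
    intro i j
    fin_cases i <;> fin_cases j
    · show |y.1 0 0| ≤ 3 / 2
      rw [abs_le]; constructor <;> linarith [h1'.1, h1'.2]
    · show |y.1 0 1| ≤ 3 / 2
      rw [abs_le]; constructor <;> linarith [h2'.1, h2'.2]
    · show |y.1 1 0| ≤ 3 / 2
      rw [abs_le]; constructor <;> linarith [h3'.1, h3'.2]
    · show |y.1 1 1| ≤ 3 / 2
      rw [abs_le]; constructor <;> linarith [h4'.1, h4'.2]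
  have h1 := SP4_r y b (3 / 2) (4 * ε) hyB hb
  have h2 : ∀ i j, |(y * b).1 i j| ≤ 2 := by
    intro i j
    have h3 := abs_le.1 (h1 i j)
    have h4 := abs_le.1 (hyB i j)
    rw [abs_le]
    constructor <;> linarith [h3.1, h3.2, h4.1, h4.2]
  have h5 := SP4_l (y * b) a⁻¹ 2 ε h2 ((SP4_nm_inv a).trans ha)
  intro i j
  have h6 := abs_le.1 (h5 i j)
  have h7 := abs_le.1 (h1 i j)
  rw [mul_assoc, abs_le]
  constructor <;> linarith [h6.1, h6.2, h7.1, h7.2]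

theorem SP4_nmx (x : SL(2, ℝ)) (h1 : x.1 0 0 = x.1 1 1) (h2 : 0 < x.1 0 0) (h3 : |x.1 1 0| ≤ 1) :
    nm x ≤ |x.1 0 1| + |x.1 1 0| := by
  have hdet : x.1 0 0 * x.1 1 1 - x.1 0 1 * x.1 1 0 = 1 := by
    have h := x.2
    rw [Matrix.det_fin_two] at h
    exact h
  have h4 : |x.1 0 0 - 1| ≤ |x.1 0 1| := by
    have h5 : (x.1 0 0 - 1) * (x.1 0 0 + 1) = x.1 0 1 * x.1 1 0 := by
      have h6 : x.1 0 0 * x.1 0 0 - x.1 0 1 * x.1 1 0 = 1 := by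
        nth_rewrite 2 [h1]
        exact hdet
      linear_combination h6
    have h6 : |x.1 0 0 - 1| * (x.1 0 0 + 1) = |x.1 0 1| * |x.1 1 0| := by
      rw [← abs_mul, ← h5, abs_mul, abs_of_pos (show 0 < x.1 0 0 + 1 by linarith)]
    have h7 : |x.1 0 0 - 1| ≤ |x.1 0 0 - 1| * (x.1 0 0 + 1) := by
      have := mul_nonneg (abs_nonneg (x.1 0 0 - 1)) h2.le
      linarith
    have h8 : |x.1 0 1| * |x.1 1 0| ≤ |x.1 0 1| * 1 := mul_le_mul_of_nonneg_left h3 (abs_nonneg _)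
    linarith
  have h5 := abs_nonneg (x.1 0 1)
  have h6 := abs_nonneg (x.1 1 0)
  refine SP4_nm_le ?_ ?_ ?_ ?_
  · linarith
  · linarith
  · linarith
  · rw [← h1]; linarith

theorem SP4_proof (hGR4 : GR4_stmt) (hSA4 : SA4_stmt) (hSB4 : SB4_stmt) : SP4_stmt := by
  obtain ⟨K1, hK1, hSA⟩ := hSA4
  refine ⟨3 * K1 + 2500, by linarith, ?_⟩
  intro d D hFE hd hdK t ε S E E' E1' g g' g1 g1' x ht1 ht2 hε hεK hS hE hE' hE1' hEE hEE1 hn1 hn2 hx hx1 hx2 hx01 hx10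
  have hKpos : (0 : ℝ) < 3 * K1 + 2500 := by linarith
  have hK2500 : 1 / (3 * K1 + 2500) ≤ 1 / 2500 := one_div_le_one_div_of_le (by norm_num) (by linarith)
  have hd' : d ≤ 1 / 2500 := hdK.trans hK2500
  have hε' : ε ≤ 1 / 2500 := hεK.trans hK2500
  have hx01' : |x.1 0 1| ≤ 1 / 2500 := hx01.trans hK2500
  have hx10' : |x.1 1 0| ≤ 1 / 2500 := hx10.trans hK2500
  set β : ℝ := |x.1 0 1| + |x.1 1 0| with hβ
  have hβ0 : 0 ≤ β := by positivity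
  have hβ1 : β ≤ 2 / 2500 := by linarith
  have hnx : nm x ≤ β := SP4_nmx x hx1 hx2 (by linarith)
  -- the step without jumps
  obtain ⟨hy, ⟨lam, hl1, hl2, hl3⟩, hy01, hyd⟩ := hSA d D hFE hd (by linarith) E E' t ε g (D.fl E' S g') x
    (Xt D E E' g (D.fl E' S g') t) hE hE' hEE (by linarith) ht1 ht2 hx rfl (by linarith)
  set y : SL(2, ℝ) := Xt D E E' g (D.fl E' S g') t with hydef
  have hdn : d * nm x ≤ d * β := mul_le_mul_of_nonneg_left hnx hd.le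
  have hKe : K1 * (d * nm x + ε) ≤ K1 * (d * β + ε) := mul_le_mul_of_nonneg_left (by linarith) (by linarith)
  have he0 : 0 ≤ d * β + ε := by positivity
  have he1 : ε ≤ d * β + ε := by
    have := mul_nonneg hd.le hβ0
    linarith
  have hy' : nm y ≤ 10 * (β + ε) := hy.trans (by linarith)
  -- the second jump, transported
  set n2 : SL(2, ℝ) := (D.fl E' t (D.fl E' S g'))⁻¹ * D.fl E1' S g1' with hn2def
  have hn2' : nm n2 ≤ 4 * ε := by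
    have h1 := hGR4 d D hFE hd (by linarith) E' E1' S ε (D.fl E' t g') g1' hE' hE1' hEE1
    have h2 : Xt D E' E1' (D.fl E' t g') g1' S = n2 := by
      show (D.fl E' S (D.fl E' t g'))⁻¹ * D.fl E1' S g1' = n2
      rw [hn2def, ← hFE.add E' S t g' hE', ← hFE.add E' t S g' hE', add_comm S t]
    rw [h2] at h1
    have h3 : Real.exp (11 / 10 * |S|) ≤ 2 := by
      have h4 : 11 / 10 * |S| ≤ 11 / 20 := by linarith
      have h5 : Real.exp (11 / 10 * |S|) ≤ Real.exp (11 / 20) := Real.exp_le_exp.2 h4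
      have h6 : (11 / 20 : ℝ) ≤ Real.log 2 := by
        have := Real.log_two_gt_d9
        linarith
      have h7 : Real.exp (11 / 20) ≤ Real.exp (Real.log 2) := Real.exp_le_exp.2 h6
      rw [Real.exp_log (by norm_num)] at h7
      linarith
    have h4 : nm ((D.fl E' t g')⁻¹ * g1') + ε ≤ 2 * ε := by linarith
    have h5 : (nm ((D.fl E' t g')⁻¹ * g1') + ε) * Real.exp (11 / 10 * |S|) ≤ 2 * ε * 2 :=
      mul_le_mul h4 h3 (Real.exp_pos _).le (by linarith)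
    linarith
  have hz0 : ((D.fl E t g)⁻¹ * g1)⁻¹ * y * n2 = g1⁻¹ * D.fl E1' S g1' := by
    rw [hydef, hn2def]
    show ((D.fl E t g)⁻¹ * g1)⁻¹ * ((D.fl E t g)⁻¹ * D.fl E' t (D.fl E' S g')) *
      ((D.fl E' t (D.fl E' S g'))⁻¹ * D.fl E1' S g1') = g1⁻¹ * D.fl E1' S g1'
    group
  have hz1 := SP4_prod ((D.fl E t g)⁻¹ * g1) y n2 ε hε (by linarith) hn1 hn2' (by linarith)
  rw [hz0] at hz1
  set z0 : SL(2, ℝ) := g1⁻¹ * D.fl E1' S g1' with hz0def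
  obtain ⟨y1, y2, y3, y4⟩ := SP4_entries y
  have hz00 := abs_le.1 (hz1 0 0)
  have hz01 := abs_le.1 (hz1 0 1)
  have hz10 := abs_le.1 (hz1 1 0)
  have hz11 := abs_le.1 (hz1 1 1)
  have hnz : nm z0 ≤ 1 / 50 := by
    have y1' := abs_le.1 y1
    have y2' := abs_le.1 y2
    have y3' := abs_le.1 y3
    have y4' := abs_le.1 y4
    refine SP4_nm_le ?_ ?_ ?_ ?_
    · rw [abs_le]; constructor <;> linarith [hz00.1, hz00.2, y1'.1, y1'.2]
    · rw [abs_le]; constructor <;> linarith [hz01.1, hz01.2, y2'.1, y2'.2]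
    · rw [abs_le]; constructor <;> linarith [hz10.1, hz10.2, y3'.1, y3'.2]
    · rw [abs_le]; constructor <;> linarith [hz11.1, hz11.2, y4'.1, y4'.2]
  obtain ⟨s, z, hz, hs, hz00', hzpos, hz01', hz10'⟩ := hSB4 d D hFE hd (by linarith) E1' g1 (D.fl E1' S g1') z0 hE1' hz0def hnz
  have hs' : |s| ≤ 2 * (K1 * (d * β + ε)) + 80 * ε := by
    have h1 : |z0.1 0 0 - z0.1 1 1| ≤ K1 * (d * β + ε) + 40 * ε := by
      have h2 := abs_le.1 (hyd.trans hKe)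
      rw [abs_le]
      constructor <;> linarith [h2.1, h2.2, hz00.1, hz00.2, hz11.1, hz11.2]
    linarith
  have hKK : (3 * K1 + 2500) * (d * β + ε) = 3 * (K1 * (d * β + ε)) + 2500 * (d * β + ε) := by ring
  have hK10 : 0 ≤ K1 * (d * β + ε) := by positivity
  refine ⟨s + S, lam, z, ?_, ?_, hz00', hzpos, by linarith, hl2, ?_, ?_⟩
  · rw [hz, ← hFE.add E1' s S g1' hE1']
  · rw [add_sub_cancel_right, hKK]
    linarith
  · have h1 := abs_le.1 hz10'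
    have h2 := abs_le.1 (hl3.trans hKe)
    rw [hKK, abs_le]
    constructor <;> linarith [h1.1, h1.2, h2.1, h2.2, hz10.1, hz10.2]
  · have h1 := abs_le.1 hz01'
    have h2 := abs_le.1 (hy01.trans (add_le_add_right hKe (1 / 2 * |x.1 0 1|)))
    rw [hKK, abs_le]
    constructor <;> linarith [h1.1, h1.2, h2.1, h2.2, hz01.1, hz01.2]

end Pool.Agent.VQ
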